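import Pool.Agent.P.MP_f511bc_an.Defs

/-! The coefficient functionals of a summation basis are continuous. -/

open Filter Topology Finset

namespace Pool.Agent.P.MP_f511bc_an

variable {K : Type*} [RCLike K] {E : Type*} [NormedAddCommGroup E] [NormedSpace K E]

theorem approx [CompleteSpace E] {ι : Type*} (p : ι → Seminorm K E)
    (hb : ∀ y, ∃ c : ℝ, ∀ j, p j y ≤ c) :
    ∃ C : ℝ, 1 ≤ C ∧ ∀ y : E, ∀ η : ℝ, 0 < η → ∃ z, ‖y - z‖ ≤ η ∧ ∀ j, p j z ≤ C * ‖y‖ := by
  let A : ℕ → Set E := fun c => {y | ∀ j, p j y ≤ c}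
  have hU : ⋃ c, closure (A c) = Set.univ := by
    refine Set.eq_univ_of_forall fun y => ?_
    obtain ⟨c, hc⟩ := hb y
    obtain ⟨N, hN⟩ := exists_nat_ge c
    exact Set.mem_iUnion.2 ⟨N, subset_closure fun j => (hc j).trans hN⟩
  obtain ⟨c, y0, hy0⟩ := nonempty_interior_of_iUnion_of_closed (fun c => isClosed_closure) hU
  obtain ⟨ε, hε, hball⟩ := Metric.mem_nhds_iff.1 (mem_interior_iff_mem_nhds.1 hy0)
  have key : ∀ z : E, ‖z‖ < ε → ∀ η : ℝ, 0 < η → ∃ w, ‖z - w‖ ≤ η ∧ ∀ j, p j w ≤ 2 * c := by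
    intro z hz η hη
    obtain ⟨u, hu, eu⟩ := Metric.mem_closure_iff.1
      (hball (show y0 + z ∈ Metric.ball y0 ε by simpa using hz)) (η / 2) (by positivity)
    obtain ⟨v, hv, ev⟩ := Metric.mem_closure_iff.1 (hball (Metric.mem_ball_self hε)) (η / 2)
      (by positivity)
    rw [dist_eq_norm] at eu ev
    refine ⟨u - v, ?_, fun j => (map_sub_le_add _ _ _).trans (by linarith [hu j, hv j])⟩
    calc ‖z - (u - v)‖ = ‖(y0 + z - u) - (y0 - v)‖ := by congr 1; abel
      _ ≤ _ := (norm_sub_le _ _).trans (by linarith)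
  refine ⟨1 + 4 * c / ε, le_add_of_nonneg_right (by positivity), fun y η hη => ?_⟩
  rcases eq_or_ne y 0 with rfl | hy
  · exact ⟨0, by simpa using hη.le, fun j => by simp⟩
  have hy' : 0 < ‖y‖ := norm_pos_iff.2 hy
  set s : ℝ := ε / 2 / ‖y‖ with hs
  have hs0 : 0 < s := by positivity
  obtain ⟨w, hw, hp⟩ := key ((s : K) • y) (by
    rw [norm_smul, RCLike.norm_ofReal, abs_of_pos hs0, hs, div_mul_cancel₀ _ hy'.ne']
    linarith) (s * η) (by positivity)
  have hsK : (s : K) ≠ 0 := by exact_mod_cast hs0.ne'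
  have hn : ‖(s : K)⁻¹‖ = s⁻¹ := by rw [norm_inv, RCLike.norm_ofReal, abs_of_pos hs0]
  refine ⟨(s : K)⁻¹ • w, ?_, fun j => ?_⟩
  · have e : y - (s : K)⁻¹ • w = (s : K)⁻¹ • ((s : K) • y - w) := by
      rw [smul_sub, inv_smul_smul₀ hsK]
    rw [e, norm_smul, hn, inv_mul_le_iff₀ hs0]
    exact hw
  · rw [map_smul_eq_mul, hn]
    calc s⁻¹ * p j w ≤ s⁻¹ * (2 * c) := by gcongr; exact hp j
      _ = 4 * c / ε * ‖y‖ := by rw [hs]; field_simp; ring
      _ ≤ _ := by gcongr; exact le_add_of_nonneg_left zero_le_one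

/-- A finite section of a row, as a linear map in the coefficients. -/
noncomputable def sec (t : ℕ → K) (x : ℕ → E) (M : ℕ) : (ℕ → K) →ₗ[K] E :=
  ∑ m ∈ range M, t m • ∑ i ∈ range (m + 1), (LinearMap.proj i : (ℕ → K) →ₗ[K] K).smulRight (x i)

theorem sec_apply (t : ℕ → K) (x : ℕ → E) (M : ℕ) (α : ℕ → K) :
    sec t x M α = ∑ m ∈ range M, t m • ∑ i ∈ range (m + 1), α i • x i := by
  simp [sec]

theorem expands_iff {t : ℕ → ℕ → K} {x : ℕ → E} {α : ℕ → K} {y : E} : Expands t x α y ↔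
    ∃ σ : ℕ → E, (∀ n, Tendsto (fun M => sec (t n) x M α) atTop (𝓝 (σ n))) ∧
      Tendsto σ atTop (𝓝 y) := by
  simp only [Expands, sec_apply]

theorem exists_lin {t : ℕ → ℕ → K} {x : ℕ → E} (hx : IsTBasis t x) :
    ∃ (a : E →ₗ[K] ℕ → K) (σ : ℕ → E →ₗ[K] E),
      (∀ n y, Tendsto (fun M => sec (t n) x M (a y)) atTop (𝓝 (σ n y))) ∧
      (∀ y, Tendsto (fun n => σ n y) atTop (𝓝 y)) ∧ ∀ α y, Expands t x α y → a y = α := by
  choose a ha hu using hx
  choose σ h1 h2 using fun y => expands_iff.1 (ha y)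
  have hadd : ∀ y y', a (y + y') = a y + a y' := fun y y' => (hu _ _ (expands_iff.2
    ⟨σ y + σ y', fun n => by simpa only [map_add, Pi.add_apply] using (h1 y n).add (h1 y' n),
      (h2 y).add (h2 y')⟩)).symm
  have hsm : ∀ (c : K) y, a (c • y) = c • a y := fun c y => (hu _ _ (expands_iff.2
    ⟨c • σ y, fun n => by simpa only [map_smul, Pi.smul_apply] using (h1 y n).const_smul c,
      (h2 y).const_smul c⟩)).symm
  refine ⟨⟨⟨a, hadd⟩, hsm⟩, fun n => ⟨⟨fun y => σ y n, fun y y' => ?_⟩, fun c y => ?_⟩,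
    fun n y => h1 y n, h2, fun α y h => (hu y α h).symm⟩
  · refine tendsto_nhds_unique (h1 _ n) ?_
    simpa only [hadd, map_add] using (h1 y n).add (h1 y' n)
  · refine tendsto_nhds_unique (h1 _ n) ?_
    simpa only [hsm, map_smul, RingHom.id_apply] using (h1 y n).const_smul c

theorem bdd_of_tendsto {f : ℕ → E} {y : E} (h : Tendsto f atTop (𝓝 y)) :
    ∃ c : ℝ, ∀ n, ‖f n‖ ≤ c := by
  obtain ⟨c, hc⟩ := h.norm.bddAbove_range
  exact ⟨c, fun n => hc ⟨n, rfl⟩⟩

theorem coef_cont [CompleteSpace E] {t : ℕ → ℕ → K} {x : ℕ → E} (a : E →ₗ[K] ℕ → K)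
    (σ : ℕ → E →ₗ[K] E)
    (h1 : ∀ n y, Tendsto (fun M => sec (t n) x M (a y)) atTop (𝓝 (σ n y)))
    (h2 : ∀ y, Tendsto (fun n => σ n y) atTop (𝓝 y)) (hu : ∀ α y, Expands t x α y → a y = α)
    (i0 : ℕ) : ∃ C : ℝ, ∀ y, ‖a y i0‖ ≤ C * ‖y‖ := by
  choose D hD using fun n y => bdd_of_tendsto (h1 n y)
  have happ : ∀ k : ℕ, ∃ C : ℝ, 1 ≤ C ∧ ∀ y : E, ∀ η : ℝ, 0 < η → ∃ z, ‖y - z‖ ≤ η ∧
      (∀ i ≤ k, ‖a z i‖ ≤ C * ‖y‖) ∧ (∀ n ≤ k, ∀ M, ‖sec (t n) x M (a z)‖ ≤ C * ‖y‖) ∧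
        ∀ n, ‖σ n z‖ ≤ C * ‖y‖ := by
    intro k
    obtain ⟨C, hC, h⟩ := approx (ι := Fin (k + 1) ⊕ (Fin (k + 1) × ℕ) ⊕ ℕ)
      (Sum.elim (fun i => (normSeminorm K K).comp ((LinearMap.proj (i : ℕ)).comp a))
        (Sum.elim (fun q => (normSeminorm K E).comp ((sec (t q.1) x q.2).comp a))
          fun n => (normSeminorm K E).comp (σ n))) fun y => by
      obtain ⟨c1, hc1⟩ := (Set.finite_range fun i : Fin (k + 1) => ‖a y i‖).bddAbove
      obtain ⟨c2, hc2⟩ := (Set.finite_range fun i : Fin (k + 1) => D i y).bddAbove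
      obtain ⟨c3, hc3⟩ := bdd_of_tendsto (h2 y)
      refine ⟨max c1 (max c2 c3), ?_⟩
      rintro (i | q | n)
      · exact le_max_of_le_left (hc1 ⟨i, rfl⟩)
      · exact le_max_of_le_right (le_max_of_le_left ((hD _ _ _).trans (hc2 ⟨q.1, rfl⟩)))
      · exact le_max_of_le_right (le_max_of_le_right (hc3 n))
    refine ⟨C, hC, fun y η hη => ?_⟩
    obtain ⟨z, hz, hp⟩ := h y η hη
    exact ⟨z, hz, fun i hi => hp (.inl ⟨i, by omega⟩),
      fun n hn M => hp (.inr (.inl (⟨n, by omega⟩, M))), fun n => hp (.inr (.inr n))⟩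
  choose C hC z hz using happ
  refine ⟨C i0 * 2, fun y => ?_⟩
  rcases eq_or_ne y 0 with rfl | hy
  · simp
  have hy' : 0 < ‖y‖ := norm_pos_iff.2 hy
  have hC0 : ∀ k, 0 < C k := fun k => one_pos.trans_le (hC k)
  let c : ℕ → ℝ := fun j => C i0 * ‖y‖ * (1 / 2) ^ j
  have hc0 : ∀ j, 0 < c j := fun j => by have := hC0 i0; positivity
  have hcs : HasSum c (C i0 * ‖y‖ * 2) := hasSum_geometric_two.mul_left _
  have hη : ∀ j, 0 < c (j + 1) / C (i0 + (j + 1)) := fun j => div_pos (hc0 _) (hC0 _)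
  let r : ℕ → E := fun j => Nat.rec y (fun j r => r - z (i0 + j) r _ (hη j)) j
  let w : ℕ → E := fun j => z (i0 + j) (r j) _ (hη j)
  have hr : ∀ j, C (i0 + j) * ‖r j‖ ≤ c j := by
    rintro (_ | j)
    · simp [c, r]
    · rw [← le_div_iff₀' (hC0 _)]
      exact (hz (i0 + j) (r j) _ (hη j)).1
  have w1 : ∀ j, ∀ i ≤ i0 + j, ‖a (w j) i‖ ≤ c j := fun j i hi =>
    ((hz _ _ _ (hη j)).2.1 i hi).trans (hr j)
  have w2 : ∀ j, ∀ n ≤ i0 + j, ∀ M, ‖sec (t n) x M (a (w j))‖ ≤ c j := fun j n hn M =>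
    ((hz _ _ _ (hη j)).2.2.1 n hn M).trans (hr j)
  have w3 : ∀ j n, ‖σ n (w j)‖ ≤ c j := fun j n => ((hz _ _ _ (hη j)).2.2.2 n).trans (hr j)
  have w4 : ∀ j, ‖w j‖ ≤ c j := fun j => le_of_tendsto' (h2 (w j)).norm (w3 j)
  have hsum : ∑' j, w j = y := by
    have e : ∀ J, ∑ j ∈ range J, w j = y - r J := by
      intro J
      induction J with
      | zero => simp [r]
      | succ J ih =>
        rw [sum_range_succ, ih]
        show y - r J + w J = y - (r J - w J)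
        abel
    have hr0 : Tendsto r atTop (𝓝 0) :=
      squeeze_zero_norm (fun j => (le_mul_of_one_le_left (norm_nonneg _) (hC _)).trans (hr j))
        hcs.summable.tendsto_atTop_zero
    refine tendsto_nhds_unique
      (Summable.of_norm_bounded hcs.summable w4).hasSum.tendsto_sum_nat ?_
    simpa only [e, sub_zero] using tendsto_const_nhds.sub hr0
  have sa : ∀ i, Summable fun j => a (w j) i := fun i =>
    Summable.of_norm_bounded_eventually_nat hcs.summable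
      ((eventually_ge_atTop i).mono fun j hj => w1 j i (by omega))
  have hexp : Expands t x (fun i => ∑' j, a (w j) i) y := by
    refine expands_iff.2 ⟨fun n => ∑' j, σ n (w j), fun n => ?_, ?_⟩
    · have e : ∀ M, sec (t n) x M (fun i => ∑' j, a (w j) i) = ∑' j, sec (t n) x M (a (w j)) := by
        intro M
        simp only [sec_apply]
        exact (hasSum_sum fun m _ => (hasSum_sum fun i _ =>
          (sa i).hasSum.smul_const (x i)).const_smul (t n m)).tsum_eq.symm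
      simp only [e]
      refine tendsto_tsum_of_dominated_convergence
        (bound := fun j => if n ≤ j then c j else D n (w j)) ?_ (fun j => h1 n (w j))
        (Eventually.of_forall fun M j => ?_)
      · refine hcs.summable.congr_cofinite ?_
        rw [Nat.cofinite_eq_atTop]
        exact (eventually_ge_atTop n).mono fun j hj => (if_pos hj).symm
      · split_ifs with hj
        · exact w2 j n (by omega) M
        · exact hD _ _ _
    · rw [← hsum]
      exact tendsto_tsum_of_dominated_convergence hcs.summable (fun j => h2 (w j))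
        (Eventually.of_forall fun n j => w3 j n)
  rw [hu _ _ hexp, mul_right_comm]
  exact tsum_of_norm_bounded hcs fun j => w1 j i0 (by omega)

end Pool.Agent.P.MP_f511bc_an
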