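import Mathlib

open Filter Topology Finset

namespace Pool.Agent.P.MP_f511bc_an

variable {K : Type*} [RCLike K] {E : Type*} [NormedAddCommGroup E] [NormedSpace K E]

/-- Silverman-Toeplitz regularity: absolutely summable rows with bounded sums, columns tending to
zero, row sums tending to one. -/
def Consistent (t : ℕ → ℕ → K) : Prop :=
  (∃ C : ℝ, ∀ n, (Summable fun m => ‖t n m‖) ∧ ∑' m, ‖t n m‖ ≤ C) ∧
  (∀ m, Tendsto (fun n => t n m) atTop (𝓝 0)) ∧
  Tendsto (fun n => ∑' m, t n m) atTop (𝓝 1)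

/-- The entries above the diagonal vanish. -/
def Triangular (t : ℕ → ℕ → K) : Prop := ∀ n m, n < m → t n m = 0

/-- With `S m = ∑ i ≤ m, α i • x i`, each series `σ n = ∑ m, t n m • S m` converges in norm and
`σ n` tends to `y` in norm. -/
def Expands (t : ℕ → ℕ → K) (x : ℕ → E) (α : ℕ → K) (y : E) : Prop :=
  ∃ σ : ℕ → E,
    (∀ n, Tendsto (fun M => ∑ m ∈ range M, t n m • ∑ i ∈ range (m + 1), α i • x i) atTop
      (𝓝 (σ n))) ∧ Tendsto σ atTop (𝓝 y)

/-- Every vector has exactly one sequence of coefficients that expands it. -/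
def IsTBasis (t : ℕ → ℕ → K) (x : ℕ → E) : Prop := ∀ y : E, ∃! α : ℕ → K, Expands t x α y

end Pool.Agent.P.MP_f511bc_an
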