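import Pool.Agent.P.MP_f511bc_an.Defs

open Filter Topology Finset

namespace Pool.Agent.P.MP_f511bc_an

variable {K : Type*} [RCLike K] {E : Type*} [NormedAddCommGroup E] [NormedSpace K E]

/-- There are arbitrarily long and arbitrarily late runs of consecutive columns all of whose
entries are arbitrarily small. -/
def SmallRuns (t : ℕ → ℕ → K) : Prop :=
  ∀ ε : ℝ, 0 < ε → ∀ d a : ℕ, ∃ p, a ≤ p ∧ ∀ m, p ≤ m → m ≤ p + d → ∀ n, ‖t n m‖ ≤ ε

variable (K) in
/-- A basis with brackets: along some increasing sequence `N`, every vector is the limit of the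
initial sums `∑ i ≤ N k, α i • y i` for exactly one sequence of scalars `α`. -/
def IsBracketBasis (y : ℕ → E) : Prop :=
  ∃ N : ℕ → ℕ, StrictMono N ∧ ∀ v : E, ∃! α : ℕ → K,
    Tendsto (fun k => ∑ i ∈ range (N k + 1), α i • y i) atTop (𝓝 v)

end Pool.Agent.P.MP_f511bc_an
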