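import Pool.Agent.P.MP_f511bc_an.Main
import Pool.Agent.P.MP_f511bc_an.DefsB

/-! Spreading the blocks of a decomposition among the vectors of a basis. -/

open Filter Topology Finset

namespace Pool.Agent.P.MP_f511bc_an

variable {K : Type*} [RCLike K] {E : Type*} [NormedAddCommGroup E] [NormedSpace K E]

theorem toeplitz [CompleteSpace E] {t : ℕ → ℕ → K} (ht : Consistent t) {s : ℕ → E} {y : E}
    (hs : Tendsto s atTop (𝓝 y)) : (∀ n, Summable fun m => t n m • s m) ∧
      Tendsto (fun n => ∑' m, t n m • s m) atTop (𝓝 y) := by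
  obtain ⟨⟨C, hC⟩, h0, h1⟩ := ht
  have hC0 : 0 ≤ C := (tsum_nonneg fun _ => norm_nonneg _).trans (hC 0).2
  have hsum : ∀ {r : ℕ → E} {z : E}, Tendsto r atTop (𝓝 z) → ∀ n, Summable fun m => t n m • r m := by
    intro r z hr n
    obtain ⟨c, hc⟩ := bdd_of_tendsto hr
    exact Summable.of_norm_bounded ((hC n).1.mul_right c) fun m => by
      rw [norm_smul]; gcongr; exact hc m
  have hr : Tendsto (fun m => s m - y) atTop (𝓝 0) := tendsto_sub_nhds_zero_iff.2 hs
  have key : Tendsto (fun n => ∑' m, t n m • (s m - y)) atTop (𝓝 0) := by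
    refine NormedAddGroup.tendsto_nhds_zero.2 fun ε hε => ?_
    have hη : 0 < ε / 2 / (C + 1) := by positivity
    obtain ⟨M, hM⟩ := eventually_atTop.1 (NormedAddGroup.tendsto_nhds_zero.1 hr _ hη)
    have e : Tendsto (fun n => ∑ m ∈ range M, ‖t n m‖ * ‖s m - y‖) atTop (𝓝 0) := by
      simpa using tendsto_finsetSum (range M) fun m _ => (h0 m).norm.mul_const ‖s m - y‖
    refine (e.eventually (gt_mem_nhds (half_pos hε))).mono fun n hn => ?_
    have h2 : HasSum (fun m => if m ∈ range M then ‖t n m‖ * ‖s m - y‖ else 0)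
        (∑ m ∈ range M, ‖t n m‖ * ‖s m - y‖) := by
      have := hasSum_sum_of_ne_finset_zero (s := range M) (L := SummationFilter.unconditional ℕ)
        (f := fun m => if m ∈ range M then ‖t n m‖ * ‖s m - y‖ else 0) fun m hm => if_neg hm
      rwa [sum_congr rfl fun m hm => if_pos hm] at this
    have h3 := tsum_of_norm_bounded (f := fun m => t n m • (s m - y))
      (h2.add ((hC n).1.hasSum.mul_right (ε / 2 / (C + 1)))) fun m => by
        rw [norm_smul]
        split_ifs with hm
        · exact le_add_of_nonneg_right (by positivity)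
        · rw [zero_add]
          gcongr
          exact (hM m (not_lt.1 fun h => hm (mem_range.2 h))).le
    have h4 : (∑' m, ‖t n m‖) * (ε / 2 / (C + 1)) ≤ ε / 2 :=
      calc _ ≤ (C + 1) * (ε / 2 / (C + 1)) := by gcongr; linarith [(hC n).2]
        _ = _ := by field_simp
    linarith
  refine ⟨hsum hs, ?_⟩
  have e : ∀ n, ∑' m, t n m • s m = ∑' m, t n m • (s m - y) + (∑' m, t n m) • y := fun n => by
    rw [← (hC n).1.of_norm.tsum_smul_const, ← (hsum hr n).tsum_add
      (hsum tendsto_const_nhds n)]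
    simp only [← smul_add, sub_add_cancel]
  simpa only [e, zero_add, one_smul] using key.add (h1.smul_const y)

theorem tbasis_of [CompleteSpace E] {t : ℕ → ℕ → K} (ht : Consistent t) (x : ℕ → E)
    (f : ℕ → E →L[K] K) (hf : ∀ i j, f i (x j) = if i = j then 1 else 0)
    (h : ∀ y, ∃ (s r : ℕ → E) (c : ℕ → ℝ), Tendsto s atTop (𝓝 y) ∧ Summable c ∧
      (∀ n m, ‖t n m • r m‖ ≤ c m) ∧ ∀ m, ∑ i ∈ range (m + 1), f i y • x i = s m + r m) :
    IsTBasis t x := by
  intro y
  obtain ⟨s, r, c, hs, hc, hr, e⟩ := h y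
  obtain ⟨h1, h2⟩ := toeplitz ht hs
  refine ⟨fun i => f i y, ⟨fun n => ∑' m, t n m • s m + ∑' m, t n m • r m, fun n => ?_, ?_⟩,
    fun α h => funext fun i => coef_unique ht (f i) i (hf i) h⟩
  · simp only [e, smul_add]
    exact ((h1 n).hasSum.add (Summable.of_norm_bounded hc (hr n)).hasSum).tendsto_sum_nat
  · have h3 := tendsto_tsum_of_dominated_convergence (f := fun n m => t n m • r m) hc
      (fun m => (ht.2.1 m).smul_const (r m)) (Eventually.of_forall hr)
    simpa using h2.add h3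

theorem bracket_coef [CompleteSpace E] {y : ℕ → E} (hy : IsBracketBasis K y) :
    ∃ (N : ℕ → ℕ) (g : ℕ → E →L[K] K), StrictMono N ∧
      (∀ i j, g i (y j) = if i = j then 1 else 0) ∧
      ∀ v, Tendsto (fun k => ∑ i ∈ range (N k + 1), g i v • y i) atTop (𝓝 v) := by
  obtain ⟨N, hN, h⟩ := hy
  let t : ℕ → ℕ → K := fun k m => if m = N k then 1 else 0
  have hrow : ∀ (k : ℕ) (s : ℕ → E),
      Tendsto (fun M => ∑ m ∈ range M, t k m • s m) atTop (𝓝 (s (N k))) := fun k s =>
    tendsto_const_nhds.congr' ((eventually_gt_atTop (N k)).mono fun M hM => by simp [t, hM])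
  have hex : ∀ α v, Expands t y α v ↔
      Tendsto (fun k => ∑ i ∈ range (N k + 1), α i • y i) atTop (𝓝 v) := fun α v =>
    ⟨fun ⟨σ, h1, h2⟩ => h2.congr fun k => tendsto_nhds_unique (h1 k) (hrow k _),
      fun h => ⟨_, fun k => hrow k _, h⟩⟩
  have hT : IsTBasis t y := fun v => by simpa only [hex] using h v
  obtain ⟨a, σ, h1, h2, hu⟩ := exists_lin hT
  choose C hC using coef_cont a σ h1 h2 hu
  refine ⟨N, fun i => LinearMap.mkContinuous ((LinearMap.proj i).comp a) (C i) (hC i), hN,
    fun i j => ?_, fun v => (hex _ v).1 (expands_iff.2 ⟨_, fun n => h1 n v, h2 v⟩)⟩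
  show a (y j) i = _
  rw [hu (Pi.single j 1) _ ((hex _ _).2 ?_), Pi.single_apply]
  refine tendsto_const_nhds.congr' ((eventually_ge_atTop j).mono fun k hk => ?_)
  have : j ≤ N k := hk.trans (hN.id_le k)
  simp [Pi.single_apply, this]

theorem exists_walk (B : ℕ → Prop) (h0 : B 0) (N : ℕ → ℕ) (hN : ∀ n, n < N n ∧ B (N n))
    (G : ℕ → ℕ → Prop) (hG : ∀ n a, ∃ p, a ≤ p ∧ G n p) :
    ∃ (u v : ℕ → ℕ) (W : ℕ → Prop), u 0 = 0 ∧ v 0 = 0 ∧
      (∀ m, W m → u (m + 1) = u m + 1 ∧ v (m + 1) = v m) ∧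
      (∀ m, ¬ W m → u (m + 1) = u m ∧ v (m + 1) = v m + 1) ∧
      Tendsto u atTop atTop ∧ Tendsto v atTop atTop ∧
      ∀ m, ¬ B (u m) → W m ∧ ∃ n p, G n p ∧ u m < N n ∧ p < m ∧ m ≤ p + u m := by
  classical
  let A : ℕ → ℕ → Prop := fun n m => 2 * n ≤ m ∧ G n m
  let u : ℕ → ℕ := fun m => Nat.rec 0 (fun m n => if ¬ B n ∨ A n m then n + 1 else n) m
  have hu1 : ∀ m, ¬ B (u m) ∨ A (u m) m → u (m + 1) = u m + 1 := fun m h => if_pos h
  have hu2 : ∀ m, ¬ (¬ B (u m) ∨ A (u m) m) → u (m + 1) = u m := fun m h => if_neg h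
  have hst : ∀ m, u m ≤ u (m + 1) ∧ u (m + 1) ≤ u m + 1 := fun m => by
    by_cases h : ¬ B (u m) ∨ A (u m) m
    · have := hu1 m h; omega
    · have := hu2 m h; omega
  have hle : ∀ m, u m ≤ m := fun m => by
    induction m with
    | zero => exact le_rfl
    | succ m ih => have := hst m; omega
  have hmono : Monotone u := monotone_nat_of_le_succ fun m => (hst m).1
  have hu : Tendsto u atTop atTop := tendsto_atTop_atTop_of_monotone hmono fun n => by
    induction n with
    | zero => exact ⟨0, le_rfl⟩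
    | succ n ih =>
      obtain ⟨m, hm⟩ := ih
      obtain ⟨p, hp, hg⟩ := hG n (max m (2 * n))
      rcases (hm.trans (hmono (le_of_max_le_left hp))).eq_or_lt with h | h
      · exact ⟨p + 1, ((hu1 p (Or.inr (by rw [← h]; exact ⟨le_of_max_le_right hp, hg⟩))).trans
          (by rw [← h])).ge⟩
      · exact ⟨_, h⟩
  have hv : ∀ m b, B b → b < u m → b ≤ m - u m := fun m b hb => by
    induction m with
    | zero => exact fun h => absurd h (Nat.not_lt_zero _)
    | succ m ih =>
      intro h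
      have h1 := hst m
      have h2 := hle m
      by_cases h3 : b < u m
      · have := ih h3; omega
      · have h4 : u m = b := by omega
        have h5 : ¬ B (u m) ∨ A (u m) m := by
          by_contra h5
          have := hu2 m h5
          omega
        have h6 : 2 * b ≤ m := by
          rw [h4] at h5
          exact (h5.resolve_left (not_not.2 hb)).1
        omega
  have hinv : ∀ m, ¬ B (u m) → ∃ n p, G n p ∧ u m < N n ∧ p < m ∧ m ≤ p + u m := fun m => by
    induction m with
    | zero => exact fun h => absurd h0 h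
    | succ m ih =>
      intro hb
      have lt : ∀ n, u m < N n → u (m + 1) < N n := fun n h1 =>
        lt_of_le_of_ne (by have := hst m; omega) fun h => hb (h ▸ (hN n).2)
      by_cases h1 : B (u m)
      · have h : A (u m) m := by
          by_contra h
          exact hb (hu2 m (by tauto) ▸ h1)
        have := hu1 m (Or.inr h)
        exact ⟨u m, m, h.2, lt _ (hN _).1, by omega, by omega⟩
      · obtain ⟨n, p, h2, h3, h4, h5⟩ := ih h1
        have := hu1 m (Or.inl h1)
        exact ⟨n, p, h2, lt n h3, by omega, by omega⟩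
  refine ⟨u, fun m => m - u m, fun m => ¬ B (u m) ∨ A (u m) m, rfl, rfl, fun m h => ?_,
    fun m h => ?_, hu, tendsto_atTop.2 fun b => ?_, fun m h => ⟨Or.inl h, hinv m h⟩⟩
  · have := hu1 m h; have := hle m; beta_reduce; constructor <;> omega
  · have := hu2 m h; have := hle m; beta_reduce; constructor <;> omega
  · exact (hu.eventually_gt_atTop (N b)).mono fun m hm =>
      (hN b).1.le.trans (hv m _ (hN b).2 hm)

theorem fill {Y Z : Type*} [NormedAddCommGroup Y] [NormedSpace K Y] [CompleteSpace Y]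
    [NormedAddCommGroup Z] [NormedSpace K Z] [CompleteSpace Z] {t : ℕ → ℕ → K}
    (ht : Consistent t) (hf : SmallRuns t) {y : ℕ → Y} (hy : IsBracketBasis K y)
    (b : SchauderBasis K Z) : ∃ x : ℕ → Y × Z, IsTBasis t x := by
  classical
  obtain ⟨N, g, hN, hg, hconv⟩ := bracket_coef hy
  let B : ℕ → Prop := fun n => n = 0 ∨ ∃ k, n = N k + 1
  let S : ℕ → Y →L[K] Y := fun n => ∑ i ∈ range n, (g i).smulRight (y i)
  have hS : ∀ n v, S n v = ∑ i ∈ range n, g i v • y i := fun n v => by simp [S]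
  let γ : ℕ → ℕ := Nat.findGreatest B
  have hγ : ∀ v, Tendsto (fun n => S (γ n) v) atTop (𝓝 v) := fun v => by
    refine Metric.tendsto_atTop.2 fun ε hε => ?_
    obtain ⟨k0, hk0⟩ := Metric.tendsto_atTop.1 (hconv v) ε hε
    refine ⟨N k0 + 1, fun n hn => ?_⟩
    have h1 : N k0 + 1 ≤ γ n := Nat.le_findGreatest hn (Or.inr ⟨k0, rfl⟩)
    have h2 : B (γ n) := Nat.findGreatest_spec hn (Or.inr ⟨k0, rfl⟩)
    rcases h2 with h2 | ⟨k, h2⟩
    · omega
    · rw [h2, hS]
      exact hk0 k (hN.le_iff_le.1 (by omega))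
  obtain ⟨u, v, W, u0, v0, hW, hW', hu, hv, hB⟩ := exists_walk B (Or.inl rfl) (fun n => N n + 1)
    (fun n => ⟨Nat.lt_succ_of_le (hN.id_le n), Or.inr ⟨n, rfl⟩⟩)
    (fun n p => ∀ j, j < N n + 1 → ∀ m, p ≤ m → m ≤ p + N n → ∀ l,
      ‖t l m‖ ≤ (1 / 2) ^ j / (‖S j - S (γ j)‖ + 1)) fun n a => by
      obtain ⟨j0, -, hj0⟩ := exists_min_image (range (N n + 1))
        (fun j => (1 / 2 : ℝ) ^ j / (‖S j - S (γ j)‖ + 1)) ⟨0, mem_range.2 (Nat.succ_pos _)⟩
      obtain ⟨p, hp, h⟩ := hf ((1 / 2) ^ j0 / (‖S j0 - S (γ j0)‖ + 1)) (by positivity) (N n) a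
      exact ⟨p, hp, fun j hj m h1 h2 l => (h m h1 h2 l).trans (hj0 j (mem_range.2 hj))⟩
  have um : Monotone u := monotone_nat_of_le_succ fun m => by
    by_cases h : W m
    · have := (hW m h).1; omega
    · have := (hW' m h).1; omega
  have vm : Monotone v := monotone_nat_of_le_succ fun m => by
    by_cases h : W m
    · have := (hW m h).2; omega
    · have := (hW' m h).2; omega
  have ui : ∀ i j, W i → W j → (u i = u j ↔ i = j) := fun i j hi hj =>
    ⟨fun e => by
      rcases lt_trichotomy i j with h | h | h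
      · have := um (Nat.succ_le_of_lt h); have := (hW i hi).1
        simp only [Nat.succ_eq_add_one] at *; omega
      · exact h
      · have := um (Nat.succ_le_of_lt h); have := (hW j hj).1
        simp only [Nat.succ_eq_add_one] at *; omega,
      fun e => by rw [e]⟩
  have vi : ∀ i j, ¬ W i → ¬ W j → (v i = v j ↔ i = j) := fun i j hi hj =>
    ⟨fun e => by
      rcases lt_trichotomy i j with h | h | h
      · have := vm (Nat.succ_le_of_lt h); have := (hW' i hi).2
        simp only [Nat.succ_eq_add_one] at *; omega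
      · exact h
      · have := vm (Nat.succ_le_of_lt h); have := (hW' j hj).2
        simp only [Nat.succ_eq_add_one] at *; omega,
      fun e => by rw [e]⟩
  let x : ℕ → Y × Z := fun m => if W m then (y (u m), 0) else (0, b (v m))
  let f : ℕ → Y × Z →L[K] K := fun m =>
    if W m then (g (u m)).comp (ContinuousLinearMap.fst K Y Z)
    else (b.coord (v m)).comp (ContinuousLinearMap.snd K Y Z)
  have hsum : ∀ p : Y × Z, ∀ m, ∑ i ∈ range m, f i p • x i = (S (u m) p.1, b.proj (v m) p.2) := by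
    intro p m
    simp only [hS, SchauderBasis.proj_apply]
    induction m with
    | zero => simp [u0, v0, Prod.ext_iff]
    | succ m ih =>
      rw [sum_range_succ, ih]
      by_cases h : W m
      · simp [(hW m h).1, (hW m h).2, sum_range_succ, f, x, h]
      · simp [(hW' m h).1, (hW' m h).2, sum_range_succ, f, x, h]
  refine ⟨x, tbasis_of ht x f (fun i j => ?_) fun p => ⟨fun m => (S (γ (u (m + 1))) p.1,
    b.proj (v (m + 1)) p.2), fun m => ((S (u (m + 1)) - S (γ (u (m + 1)))) p.1, 0),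
    fun m => 2 * ((1 / 2) ^ u (m + 1) - (1 / 2) ^ u (m + 1 + 1)) * ‖p.1‖, ?_, ?_, fun n m => ?_,
    fun m => ?_⟩⟩
  · by_cases hi : W i <;> by_cases hj : W j
    · simp [f, x, hi, hj, hg, ui i j hi hj]
    · have : i ≠ j := fun e => hj (e ▸ hi)
      simp [f, x, hi, hj, this]
    · have : i ≠ j := fun e => hi (e ▸ hj)
      simp [f, x, hi, hj, this]
    · simp [f, x, hi, hj, b.ortho, Pi.single_apply, vi i j hi hj]
  · exact (((hγ p.1).comp hu).comp (tendsto_add_atTop_nat 1)).prodMk_nhds
      (((b.tendsto_proj p.2).comp hv).comp (tendsto_add_atTop_nat 1))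
  · refine (Summable.mul_left 2 (summable_of_sum_range_le (c := 1) (fun m => ?_)
      fun M => ?_)).mul_right _
    · exact sub_nonneg.2 (pow_le_pow_of_le_one (by norm_num) (by norm_num) (um (Nat.le_succ _)))
    · rw [sum_range_sub' fun m => (1 / 2 : ℝ) ^ u (m + 1)]
      have h1 : (1 / 2 : ℝ) ^ u (0 + 1) ≤ 1 := pow_le_one₀ (by norm_num) (by norm_num)
      have h2 : 0 ≤ (1 / 2 : ℝ) ^ u (M + 1) := by positivity
      linarith
  · rw [norm_smul, Prod.norm_mk, norm_zero, max_eq_left (norm_nonneg _)]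
    by_cases h : B (u (m + 1))
    · have e : γ (u (m + 1)) = u (m + 1) := Nat.findGreatest_eq h
      rw [e, sub_self, zero_apply, norm_zero, mul_zero]
      exact mul_nonneg (mul_nonneg zero_le_two (sub_nonneg.2
        (pow_le_pow_of_le_one (by norm_num) (by norm_num) (um (Nat.le_succ _))))) (norm_nonneg _)
    · obtain ⟨h1, q, r, h2, h4, h5, h6⟩ := hB _ h
      beta_reduce
      rw [(hW _ h1).1, pow_succ]
      have h3 := h2 _ h4 m (by omega) (by omega) n
      rw [le_div_iff₀ (by positivity)] at h3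
      calc _ ≤ ‖t n m‖ * ((‖S (u (m + 1)) - S (γ (u (m + 1)))‖ + 1) * ‖p.1‖) := by
            gcongr
            exact ContinuousLinearMap.le_of_opNorm_le _ (le_add_of_nonneg_right zero_le_one) _
        _ ≤ (1 / 2) ^ u (m + 1) * ‖p.1‖ := by rw [← mul_assoc]; gcongr
        _ = _ := by ring
  · rw [hsum]
    simp

/-- The Cesaro matrix satisfies both hypotheses. -/
theorem cesaro_ok : Consistent (fun n m : ℕ => if m ≤ n then (1 : K) / (n + 1) else 0) ∧
    SmallRuns (fun n m : ℕ => if m ≤ n then (1 : K) / (n + 1) else 0) := by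
  have hn : ∀ n : ℕ, ‖(1 : K) / (n + 1)‖ = 1 / (n + 1) := fun n => by
    rw [norm_div, norm_one, ← Nat.cast_succ, RCLike.norm_natCast, Nat.cast_succ]
  have hz : ∀ n m : ℕ, m ∉ range (n + 1) → ¬ m ≤ n := fun n m h h' =>
    h (mem_range.2 (Nat.lt_succ_of_le h'))
  refine ⟨⟨⟨1, fun n => ⟨summable_of_ne_finset_zero (s := range (n + 1)) fun m hm => by
    simp [hz n m hm], ?_⟩⟩, fun m => ?_, ?_⟩, fun ε hε d a => ?_⟩
  · beta_reduce
    rw [tsum_eq_sum (s := range (n + 1)) fun m hm => by simp [hz n m hm],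
      sum_congr rfl fun m hm => by rw [if_pos (Nat.lt_succ_iff.1 (mem_range.1 hm)), hn]]
    simp only [sum_const, card_range, nsmul_eq_mul, Nat.cast_succ]
    exact (mul_one_div_cancel (by positivity)).le
  · refine squeeze_zero_norm (fun n => ?_) tendsto_one_div_add_atTop_nhds_zero_nat
    beta_reduce
    split_ifs
    · exact (hn n).le
    · rw [norm_zero]; positivity
  · refine tendsto_const_nhds.congr fun n => ?_
    beta_reduce
    rw [tsum_eq_sum (s := range (n + 1)) fun m hm => if_neg (hz n m hm),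
      sum_congr rfl fun m hm => if_pos (Nat.lt_succ_iff.1 (mem_range.1 hm))]
    simp only [sum_const, card_range, nsmul_eq_mul, Nat.cast_succ]
    exact (mul_one_div_cancel (Nat.cast_add_one_ne_zero n)).symm
  · obtain ⟨p, hp⟩ := exists_nat_one_div_lt hε
    refine ⟨max a p, le_max_left _ _, fun m h1 _ n => ?_⟩
    beta_reduce
    split_ifs with h
    · rw [hn]
      exact (Nat.one_div_le_one_div ((le_of_max_le_right h1).trans h)).trans hp.le
    · rw [norm_zero]; exact hε.le

end Pool.Agent.P.MP_f511bc_an
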