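import Pool.Agent.P.MP_f511bc_an.Coef

/-! Every summation basis is a summation basis for a triangular matrix. -/

open Filter Topology Finset

namespace Pool.Agent.P.MP_f511bc_an

variable {K : Type*} [RCLike K] {E : Type*} [NormedAddCommGroup E] [NormedSpace K E]

theorem tail {t : ℕ → ℕ → K} (ht : Consistent t) (i : ℕ) : ∃ l : ℕ → K,
    (∀ n, Tendsto (fun M => ∑ m ∈ range M, t n m * if i ≤ m then 1 else 0) atTop (𝓝 (l n))) ∧
      Tendsto l atTop (𝓝 1) := by
  obtain ⟨⟨C, hC⟩, h0, h1⟩ := ht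
  refine ⟨fun n => ∑' m, t n m - ∑ m ∈ range i, t n m, fun n => ?_, ?_⟩
  · refine ((hC n).1.of_norm.hasSum.tendsto_sum_nat.sub_const _).congr'
      ((eventually_ge_atTop i).mono fun M hM => ?_)
    induction M, hM using Nat.le_induction with
    | base =>
      exact (sub_self _).trans (sum_eq_zero fun m hm => by
        rw [if_neg (not_le.2 (mem_range.1 hm)), mul_zero]).symm
    | succ M hM ih =>
      simp only at ih ⊢
      rw [sum_range_succ, sum_range_succ, ← ih, if_pos hM]
      ring
  · simpa using h1.sub (tendsto_finsetSum (range i) fun m _ => h0 m)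

theorem expands_single {t : ℕ → ℕ → K} (ht : Consistent t) (x : ℕ → E) (j : ℕ) :
    Expands t x (Pi.single j 1) (x j) := by
  obtain ⟨l, h1, h2⟩ := tail ht j
  refine ⟨fun n => l n • x j, fun n => ((h1 n).smul_const (x j)).congr fun M => ?_,
    by simpa using h2.smul_const (x j)⟩
  rw [sum_smul]
  refine sum_congr rfl fun m _ => ?_
  simp [Pi.single_apply]

theorem coef_unique {u : ℕ → ℕ → K} (hu : Consistent u) {x : ℕ → E} (f : E →L[K] K) (i : ℕ)
    (hf : ∀ j, f (x j) = if i = j then 1 else 0) {α : ℕ → K} {y : E} (h : Expands u x α y) :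
    α i = f y := by
  obtain ⟨l, h1, h2⟩ := tail hu i
  obtain ⟨σ, h3, h4⟩ := h
  have e : ∀ n, f (σ n) = l n * α i := fun n => by
    refine tendsto_nhds_unique ((f.continuous.tendsto _).comp (h3 n))
      (((h1 n).mul_const (α i)).congr fun M => ?_)
    rw [sum_mul, Function.comp_apply, map_sum]
    refine sum_congr rfl fun m _ => ?_
    simp [hf]
  refine tendsto_nhds_unique ?_ ((f.continuous.tendsto _).comp h4)
  simpa only [Function.comp_def, e, one_mul] using h2.mul_const (α i)

/-- The row of the square of a finite section. -/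
noncomputable def sq (t : ℕ → K) (M j : ℕ) : K :=
  if j < M then t j * (t j + 2 * ∑ m ∈ Ico (j + 1) M, t m) else 0

section alg

variable {A : Type*} [Ring A] [Algebra K A] (t : ℕ → K) (S : ℕ → A)
  (hS : ∀ a b, a ≤ b → S a * S b = S a ∧ S b * S a = S a)

include hS

theorem sq_succ (M : ℕ) : (∑ m ∈ range (M + 1), t m • S m) * ∑ m ∈ range (M + 1), t m • S m =
    (∑ m ∈ range M, t m • S m) * (∑ m ∈ range M, t m • S m) +
      t M • (∑ m ∈ range (M + 1), t m • S m + ∑ m ∈ range M, t m • S m) := by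
  have h1 : (∑ m ∈ range M, t m • S m) * S M = ∑ m ∈ range M, t m • S m := by
    rw [sum_mul]
    exact sum_congr rfl fun m hm => by rw [smul_mul_assoc, (hS m M (mem_range.1 hm).le).1]
  have h2 : S M * ∑ m ∈ range M, t m • S m = ∑ m ∈ range M, t m • S m := by
    rw [mul_sum]
    exact sum_congr rfl fun m hm => by rw [mul_smul_comm, (hS m M (mem_range.1 hm).le).2]
  rw [sum_range_succ, mul_add, add_mul, add_mul, mul_smul_comm, mul_smul_comm, smul_mul_assoc,
    smul_mul_assoc, h1, h2, (hS M M le_rfl).1]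
  simp only [smul_add]
  abel

theorem sq_eq (M : ℕ) : (∑ m ∈ range M, t m • S m) * ∑ m ∈ range M, t m • S m =
    ∑ j ∈ range M, sq t M j • S j := by
  induction M with
  | zero => simp
  | succ M ih =>
    have e : ∑ j ∈ range M, sq t (M + 1) j • S j =
        ∑ j ∈ range M, sq t M j • S j + (2 * t M) • ∑ j ∈ range M, t j • S j := by
      rw [smul_sum, ← sum_add_distrib]
      refine sum_congr rfl fun j hj => ?_
      have hj' := mem_range.1 hj
      rw [smul_smul, ← add_smul, sq, sq, if_pos hj', if_pos (by omega), sum_Ico_succ_top hj']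
      congr 1
      ring
    rw [sq_succ t S hS, ih, sum_range_succ, sum_range_succ, e, sq, if_pos M.lt_succ_self]
    simp only [Ico_self, sum_empty, mul_zero, add_zero, two_mul, add_smul, smul_add, mul_smul]
    abel

end alg

theorem sq_le {t : ℕ → K} {C : ℝ} (hs : Summable fun m => ‖t m‖) (hC : ∑' m, ‖t m‖ ≤ C)
    (M j : ℕ) : ‖sq t M j‖ ≤ 3 * C * ‖t j‖ := by
  have h : ∀ s : Finset ℕ, ‖∑ m ∈ s, t m‖ ≤ C := fun s =>
    (norm_sum_le _ _).trans ((hs.sum_le_tsum s fun _ _ => norm_nonneg _).trans hC)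
  have h0 : 0 ≤ C := by simpa using h ∅
  have h1 : ‖t j‖ ≤ C := by simpa using h {j}
  rw [sq]
  split_ifs
  · rw [norm_mul, mul_comm]
    gcongr
    refine (norm_add_le _ _).trans ?_
    rw [norm_mul, RCLike.norm_two]
    linarith [h (Ico (j + 1) M)]
  · rw [norm_zero]; positivity

theorem main [CompleteSpace E] {t : ℕ → ℕ → K} {x : ℕ → E} (ht : Consistent t)
    (hx : IsTBasis t x) : ∃ u : ℕ → ℕ → K, Consistent u ∧ Triangular u ∧ IsTBasis u x := by
  obtain ⟨a, σ, h1, h2, hu⟩ := exists_lin hx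
  choose Cf hCf using coef_cont a σ h1 h2 hu
  let f : ℕ → E →L[K] K := fun i =>
    LinearMap.mkContinuous ((LinearMap.proj i).comp a) (Cf i) (hCf i)
  have hfa : ∀ i y, f i y = a y i := fun _ _ => rfl
  have hf : ∀ i j, f i (x j) = if i = j then 1 else 0 := fun i j => by
    rw [hfa, hu _ _ (expands_single ht x j), Pi.single_apply]
  let S : ℕ → E →L[K] E := fun m => ∑ i ∈ range (m + 1), (f i).smulRight (x i)
  have hSa : ∀ m y, S m y = ∑ i ∈ range (m + 1), a y i • x i := fun m y => by simp [S, hfa]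
  have hfS : ∀ i m y, a (S m y) i = if i ≤ m then a y i else 0 := fun i m y => by
    rw [← hfa, hSa]
    simp [hf]
  have hS : ∀ a b, a ≤ b → S a * S b = S a ∧ S b * S a = S a := by
    intro p q hpq
    refine ⟨ContinuousLinearMap.ext fun y => ?_, ContinuousLinearMap.ext fun y => ?_⟩
    · show S p (S q y) = S p y
      rw [hSa p, hSa p]
      exact sum_congr rfl fun i hi => by rw [hfS, if_pos (by have := mem_range.1 hi; omega)]
    · refine (hSa q (S p y)).trans ((sum_subset (range_mono (Nat.succ_le_succ hpq))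
        fun i _ hi => ?_).symm.trans ((sum_congr rfl fun i hi => ?_).trans (hSa p y).symm))
      · rw [hfS, if_neg (by simpa [Nat.lt_succ_iff] using hi), zero_smul]
      · rw [hfS, if_pos (by have := mem_range.1 hi; omega)]
  let B : ℕ → ℕ → E →L[K] E := fun n M => ∑ m ∈ range M, t n m • S m
  have hB : ∀ n y, Tendsto (fun M => B n M y) atTop (𝓝 (σ n y)) := fun n y =>
    (h1 n y).congr fun M => by simp [B, sec_apply, hSa]
  choose D hD using fun n => banach_steinhaus (g := B n) fun y => bdd_of_tendsto (hB n y)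
  have hσ : ∀ n y, ‖σ n y‖ ≤ D n * ‖y‖ := fun n y =>
    le_of_tendsto' (hB n y).norm fun M => (B n M).le_of_opNorm_le (hD n M) y
  obtain ⟨L, hL⟩ := banach_steinhaus (g := fun n => (σ n).mkContinuous (D n) (hσ n))
    fun y => bdd_of_tendsto (h2 y)
  have hσL : ∀ n y, ‖σ n y‖ ≤ L * ‖y‖ := fun n y =>
    ((σ n).mkContinuous (D n) (hσ n)).le_of_opNorm_le (hL n) y
  have two : ∀ {T : ℕ → E → E} {c : ℝ} {g : ℕ → E} {z z' : E},
      (∀ n v w, T n v - T n w = T n (v - w)) → (∀ n v, ‖T n v‖ ≤ c * ‖v‖) →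
      Tendsto g atTop (𝓝 z) → Tendsto (fun n => T n z) atTop (𝓝 z') →
      Tendsto (fun n => T n (g n)) atTop (𝓝 z') := by
    intro T c g z z' hT hc hg hz
    have e : Tendsto (fun n => T n (g n - z)) atTop (𝓝 0) :=
      squeeze_zero_norm (fun n => hc n _) (by
        simpa using (tendsto_iff_norm_sub_tendsto_zero.1 hg).const_mul c)
    simpa [← hT] using e.add hz
  obtain ⟨⟨C, hC⟩, h0, h3⟩ := id ht
  have hM : ∀ n : ℕ, ∃ M, (∀ y, ‖(B n M * B n M) y - σ n (σ n y)‖ ≤ 1 / (n + 1) * ‖y‖) ∧
      ‖∑ m ∈ range M, t n m - ∑' m, t n m‖ ≤ 1 / (n + 1) := by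
    intro n
    have hs : Summable fun m => t n m • (B n (m + 1) + B n m) :=
      Summable.of_norm_bounded ((hC n).1.mul_right (D n + D n)) fun m => by
        rw [norm_smul]
        gcongr
        exact norm_add_le_of_le (hD _ _) (hD _ _)
    have e : ∀ M, ∑ m ∈ range M, t n m • (B n (m + 1) + B n m) = B n M * B n M := by
      intro M
      induction M with
      | zero => simp [B]
      | succ M ih => rw [sum_range_succ, ih]; exact (sq_succ (t n) S hS M).symm
    have hW := hs.hasSum.tendsto_sum_nat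
    simp only [e] at hW
    set W := ∑' m, t n m • (B n (m + 1) + B n m)
    have hWy : ∀ y, W y = σ n (σ n y) := fun y =>
      tendsto_nhds_unique (((ContinuousLinearMap.apply K E y).continuous.tendsto _).comp hW)
        (two (T := fun M v => B n M v) (fun M v w => (map_sub _ _ _).symm)
          (fun M v => (B n M).le_of_opNorm_le (hD n M) v) (hB n y) (hB n _))
    have hpos : (0 : ℝ) < 1 / (n + 1) := by positivity
    obtain ⟨M, hM1, hM2⟩ := ((Metric.tendsto_nhds.1 hW _ hpos).and
      (Metric.tendsto_nhds.1 (hC n).1.of_norm.hasSum.tendsto_sum_nat _ hpos)).exists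
    rw [dist_eq_norm] at hM1 hM2
    exact ⟨M, fun y => hWy y ▸ (B n M * B n M - W).le_of_opNorm_le hM1.le y, hM2.le⟩
  choose M hM1 hM2 using hM
  have hz : Tendsto (fun n : ℕ => 1 / ((n : ℝ) + 1)) atTop (𝓝 0) :=
    tendsto_one_div_add_atTop_nhds_zero_nat
  have hF : ∀ y, Tendsto (fun n => (B n (M n) * B n (M n)) y) atTop (𝓝 y) := fun y => by
    have e1 := two (T := fun n v => σ n v) (fun n v w => (map_sub _ _ _).symm) hσL (h2 y) (h2 y)
    have e2 := squeeze_zero_norm (fun n => hM1 n y) (by simpa using hz.mul_const ‖y‖)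
    simpa using e2.add e1
  have hG : Tendsto (fun n => ∑ j ∈ range (M n), sq (t n) (M n) j) atTop (𝓝 1) := by
    have e1 : Tendsto (fun n => ∑ m ∈ range (M n), t n m) atTop (𝓝 1) := by
      simpa using (squeeze_zero_norm hM2 hz).add h3
    have e2 := fun n => sq_eq (t n) (fun _ => (1 : K)) (fun _ _ _ => by simp) (M n)
    simp only [smul_eq_mul, mul_one] at e2
    simpa only [e2, mul_one] using e1.mul e1
  let κ : ℕ → ℕ := fun n => Nat.findGreatest (fun k => M k ≤ n) n
  have hκ : Tendsto κ atTop atTop := tendsto_atTop.2 fun k =>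
    (eventually_ge_atTop (max k (M k))).mono fun n hn =>
      Nat.le_findGreatest (le_of_max_le_left hn) (le_of_max_le_right hn)
  have hκ2 : ∀ᶠ n in atTop, M (κ n) ≤ n := (eventually_ge_atTop (M 0)).mono fun n hn =>
    Nat.findGreatest_spec (P := fun k => M k ≤ n) (Nat.zero_le n) hn
  let N : ℕ → ℕ := fun n => min (M (κ n)) n
  have hN : ∀ᶠ n in atTop, M (κ n) = N n := hκ2.mono fun n hn => (min_eq_left hn).symm
  have hz0 : ∀ n j, N n ≤ j → sq (t (κ n)) (N n) j = 0 := fun n j hj => if_neg (not_lt.2 hj)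
  have hcons : Consistent fun n j => sq (t (κ n)) (N n) j := by
    have hC0 : 0 ≤ C := (tsum_nonneg fun _ => norm_nonneg _).trans (hC 0).2
    have hle := fun n j => sq_le (hC (κ n)).1 (hC (κ n)).2 (N n) j
    have hs := fun n => Summable.of_nonneg_of_le (fun _ => norm_nonneg _) (hle n)
      ((hC (κ n)).1.mul_left (3 * C))
    refine ⟨⟨3 * C * C, fun n => ⟨hs n, ?_⟩⟩, fun j => ?_, ?_⟩
    · refine ((hs n).tsum_le_tsum (hle n) ((hC (κ n)).1.mul_left (3 * C))).trans ?_
      rw [tsum_mul_left]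
      exact mul_le_mul_of_nonneg_left (hC _).2 (by positivity)
    · exact squeeze_zero_norm (fun n => hle n j)
        (by simpa using ((h0 j).comp hκ).norm.const_mul (3 * C))
    · refine (hG.comp hκ).congr' (hN.mono fun n hn => ?_)
      rw [Function.comp_apply, hn]
      exact (tsum_eq_sum fun j hj => hz0 n j (not_lt.1 fun h => hj (mem_range.2 h))).symm
  refine ⟨_, hcons, fun n j hj => hz0 n j ((min_le_right _ _).trans hj.le), fun y =>
    ⟨a y, ⟨fun n => (B (κ n) (N n) * B (κ n) (N n)) y, fun n => ?_, ?_⟩,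
      fun α h => funext fun i => coef_unique hcons (f i) i (hf i) h⟩⟩
  · refine tendsto_const_nhds.congr' ((eventually_ge_atTop (N n)).mono fun J hJ => ?_)
    have e : B (κ n) (N n) * B (κ n) (N n) = ∑ j ∈ range J, sq (t (κ n)) (N n) j • S j :=
      (sq_eq (t (κ n)) S hS _).trans (sum_subset (range_mono hJ) fun j _ hj => by
        rw [hz0 n j (not_lt.1 fun h => hj (mem_range.2 h)), zero_smul])
    simp only [e]
    simp [hSa]
  · exact ((hF y).comp hκ).congr' (hN.mono fun n hn => by rw [Function.comp_apply, hn])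

end Pool.Agent.P.MP_f511bc_an
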