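import Pool.Agent.P.MP_f511bc_an.Nb.Final

open Filter Topology Finset

universe u

namespace Pool.Agent.P.MP_f511bc_an.VariantNoBasis

open Pool.Agent.P.MP_f511bc_an

theorem result (K : Type u) [RCLike K] :
    ∃ (E : Type u) (_ : NormedAddCommGroup E) (_ : NormedSpace K E), CompleteSpace E ∧
      (∀ t : ℕ → ℕ → K, Consistent t → SmallRuns t → ∃ x : ℕ → E, IsTBasis t x) ∧
      ∀ x : ℕ → E, ¬ ∀ y : E, ∃! α : ℕ → K,
        Tendsto (fun n => ∑ i ∈ range n, α i • x i) atTop (𝓝 y) :=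
  Nb.final K

/-- The Cesaro matrix is consistent and triangular and has small runs. -/
theorem cesaro (K : Type u) [RCLike K] :
    Consistent (fun n m : ℕ => if m ≤ n then (1 : K) / (n + 1) else 0) ∧
    Triangular (fun n m : ℕ => if m ≤ n then (1 : K) / (n + 1) else 0) ∧
    SmallRuns (fun n m : ℕ => if m ≤ n then (1 : K) / (n + 1) else 0) :=
  ⟨cesaro_ok.1, fun _ _ h => if_neg (not_le.2 h), cesaro_ok.2⟩

end Pool.Agent.P.MP_f511bc_an.VariantNoBasis
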