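import Pool.Agent.P.MP_f511bc_an.Fill

namespace Pool.Agent.P.MP_f511bc_an.VariantSmallRuns

open Pool.Agent.P.MP_f511bc_an

theorem result {K : Type*} [RCLike K] {Y Z : Type*} [NormedAddCommGroup Y] [NormedSpace K Y]
    [CompleteSpace Y] [NormedAddCommGroup Z] [NormedSpace K Z] [CompleteSpace Z]
    (t : ℕ → ℕ → K) (y : ℕ → Y) (ht : Consistent t) (hs : SmallRuns t)
    (hy : IsBracketBasis K y) (b : SchauderBasis K Z) : ∃ x : ℕ → Y × Z, IsTBasis t x :=
  fill ht hs hy b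

end Pool.Agent.P.MP_f511bc_an.VariantSmallRuns
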